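import Pool.Agent.Q157.Sym

/-!
# Strictly monotonic idempotent symmetrizations which fix the spherical cylinders

For all admissible `n`, `i` and for both classes `𝒦^n` and `𝒦^n_n` every strictly monotonic,
idempotent symmetrization which is invariant on `H`-symmetric spherical cylinders is projection
invariant.

Proof.  Let `◇` be monotonic and fix the cylinders.  If `K` lies in a cylinder `C`, then
`◇K ⊆ ◇C = C`; since the projection `K|H` is an intersection of `i`-dimensional balls,
`(◇K)|H ⊆ K|H`.  Conversely let `p ∈ K` and `ε > 0`.  The body `K_ε = K ∩ B(p, ε)` is again in the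
class, `◇K_ε ⊆ ◇K` is not empty and `(◇K_ε)|H ⊆ K_ε|H` is contained in the ball with centre `p|H`
and radius `ε`; so `(◇K)|H` contains points arbitrarily close to `p|H`, and it is closed.
-/

set_option autoImplicit false

open Metric
open scoped Pointwise

namespace Pool.Agent.Results.MP_f102ee_gt.AlwaysInvariant

/-- the class `𝒦^n` of nonempty compact convex subsets of `ℝ^n` -/
def CompactConvexSets (n : ℕ) : Set (Set (EuclideanSpace ℝ (Fin n))) :=
  {K | IsCompact K ∧ Convex ℝ K ∧ K.Nonempty}

/-- the class `𝒦^n_n` of convex bodies: compact convex sets with nonempty interior -/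
def ConvexBodies (n : ℕ) : Set (Set (EuclideanSpace ℝ (Fin n))) :=
  {K | IsCompact K ∧ Convex ℝ K ∧ (interior K).Nonempty}

/-- the orthogonal projection `K|H` -/
noncomputable def projection {n : ℕ} (H : Submodule ℝ (EuclideanSpace ℝ (Fin n)))
    (K : Set (EuclideanSpace ℝ (Fin n))) : Set (EuclideanSpace ℝ (Fin n)) :=
  (fun x => H.starProjection x) '' K

/-- `K` is `H`-symmetric: it is invariant under the reflection `x + y ↦ x - y` (`x ∈ H`,
`y ∈ H^⊥`), that is `z ↦ 2 (z|H) - z` -/
def IsHSymmetric {n : ℕ} (H : Submodule ℝ (EuclideanSpace ℝ (Fin n)))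
    (K : Set (EuclideanSpace ℝ (Fin n))) : Prop :=
  (fun z => (2 : ℝ) • H.starProjection z - z) '' K = K

/-- the spherical cylinder `D_r(x) + s (B^n ∩ H^⊥)`, `D_r(x)` the ball of `H` with centre `x` and
radius `r` -/
def sphericalCylinder {n : ℕ} (H : Submodule ℝ (EuclideanSpace ℝ (Fin n)))
    (x : EuclideanSpace ℝ (Fin n)) (r s : ℝ) : Set (EuclideanSpace ℝ (Fin n)) :=
  (closedBall x r ∩ (H : Set (EuclideanSpace ℝ (Fin n)))) +
    s • (closedBall (0 : EuclideanSpace ℝ (Fin n)) 1 ∩ (Hᗮ : Set (EuclideanSpace ℝ (Fin n))))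

/-- **The negated form of the question holds** for all `n ≥ 4`, `2 ≤ i ≤ n - 2`, all `H` and both
classes `B`; a symmetrization is a map `D : B → B` with `H`-symmetric values. -/
theorem result (n i : ℕ) (hn : 4 ≤ n) (hi : 2 ≤ i) (hin : i ≤ n - 2)
    (H : Submodule ℝ (EuclideanSpace ℝ (Fin n))) (hH : Module.finrank ℝ H = i)
    (B : Set (Set (EuclideanSpace ℝ (Fin n)))) (hB : B = CompactConvexSets n ∨ B = ConvexBodies n) :
    ¬ ∃ D : B → B,
      -- `D` is a symmetrization
      (∀ K, IsHSymmetric H (D K)) ∧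
      -- it is strictly monotonic
      (∀ K L : B, (K : Set (EuclideanSpace ℝ (Fin n))) ⊆ L →
        (D K : Set (EuclideanSpace ℝ (Fin n))) ⊆ D L) ∧
      (∀ K L : B, (K : Set (EuclideanSpace ℝ (Fin n))) ⊆ L → K ≠ L → D K ≠ D L) ∧
      -- it is idempotent
      (∀ K, D (D K) = D K) ∧
      -- it is invariant on `H`-symmetric spherical cylinders
      (∀ x ∈ H, ∀ r s : ℝ, 0 < r → 0 < s → ∀ C : B,
        (C : Set (EuclideanSpace ℝ (Fin n))) = sphericalCylinder H x r s → D C = C) ∧
      -- it is not projection invariant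
      ¬ (∀ K : B, projection H (D K) = projection H K) := by
  rintro ⟨D, -, hmono, -, -, hcyl, hnot⟩
  exact hnot fun K => Pool.Agent.Q157.Sym.main hB D hmono hcyl K

end Pool.Agent.Results.MP_f102ee_gt.AlwaysInvariant
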